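import Pool.Agent.Helper42.SG.GoalsP

/-!
# Packet SGM-SEQ (MP_a41896_nt): the pigeonhole argument
-/

set_option autoImplicit false

namespace Pool.Agent.Helper7.SGM

open Pool.Agent.Helper42.SG Pool.Agent.Helper29.BL

theorem t_SEQ (hCLS : Pool.Agent.Helper42.SG.CLS) : Pool.Agent.Helper42.SG.SEQ := by
  intro G _ Γ hΓ H hH Ex n θ K0 hθ hno
  classical
  by_contra hcon
  push Not at hcon
  -- the sequence
  obtain ⟨K, hK1, hK0⟩ : ∃ K : ℝ, 1 ≤ K ∧ K0 ≤ K := ⟨max 1 K0, le_max_left _ _, le_max_right _ _⟩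
  choose w hwΓ hwE hwH using hcon
  set z : ℕ → G := fun i => Nat.rec (w K) (fun _ g => w (K * H g)) i with hz
  have hz0 : z 0 = w K := rfl
  have hzs : ∀ i, z (i + 1) = w (K * H (z i)) := fun i => rfl
  have hzΓ : ∀ i, z i ∈ Γ := by
    intro i
    cases i with
    | zero => exact hwΓ _
    | succ i => exact hwΓ _
  have hzE : ∀ i, Ex (z i) := by
    intro i
    cases i with
    | zero => exact hwE _
    | succ i => exact hwE _
  have hz0K : K < H (z 0) := hwH K
  have hstep : ∀ i, K * H (z i) ≤ H (z (i + 1)) := fun i => (hwH (K * H (z i))).le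
  have hpos : ∀ i, 0 < H (z i) := by
    intro i
    induction i with
    | zero => linarith
    | succ i ih => exact lt_of_lt_of_le (mul_pos (by linarith) ih) (hstep i)
  have hmono1 : ∀ i, H (z i) ≤ H (z (i + 1)) := by
    intro i
    refine le_trans ?_ (hstep i)
    have := hpos i
    nlinarith
  have hmono : Monotone fun i => H (z i) := monotone_nat_of_le_succ hmono1
  have hjump : ∀ i j, i < j → K * H (z i) ≤ H (z j) := by
    intro i j hij
    obtain ⟨k, rfl⟩ := Nat.exists_eq_add_of_lt hij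
    refine le_trans ?_ (hstep (i + k))
    have : H (z i) ≤ H (z (i + k)) := hmono (Nat.le_add_right i k)
    exact mul_le_mul_of_nonneg_left this (by linarith)
  -- classes
  obtain ⟨N, hN⟩ := hCLS G Γ hΓ H hH θ hθ
  obtain ⟨f, hf⟩ := hN (N * n) z hzΓ (hpos 0) hmono1
  obtain ⟨c, _, hc⟩ := Finset.exists_lt_card_fiber_of_mul_lt_card_of_maps_to
    (s := Finset.range (N * n + 1)) (t := (Finset.univ : Finset (Fin N))) (f := f) (n := n)
    (fun _ _ => Finset.mem_univ _) (by simp)
  set s := (Finset.range (N * n + 1)).filter (fun i => f i = c) with hs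
  set emb := s.orderEmbOfCardLe (k := n + 1) hc with hemb
  have hmem : ∀ j, emb j ∈ s := fun j => Finset.orderEmbOfCardLe_mem s hc j
  set idx : ℕ → ℕ := fun j => emb ⟨min j n, by omega⟩ with hidx
  have hidxlt : ∀ i j, i < j → j ≤ n → idx i < idx j := by
    intro i j hij hjn
    simp only [hidx]
    apply emb.strictMono
    rw [Fin.mk_lt_mk]
    omega
  have hidxs : ∀ j, idx j ≤ N * n ∧ f (idx j) = c := by
    intro j
    have h := hmem ⟨min j n, by omega⟩
    rw [hs, Finset.mem_filter, Finset.mem_range] at h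
    exact ⟨by simp only [hidx]; omega, h.2⟩
  have hex : ∀ j, ∃ e : ℕ, j < n → H ((2 ^ e) • z (idx j) - z (idx n)) ≤ θ ^ 2 * H (z (idx n)) := by
    intro j
    by_cases hj : j < n
    · obtain ⟨e, he⟩ := hf (idx j) (idx n) (hidxlt j n hj le_rfl) (hidxs n).1
        (by rw [(hidxs j).2, (hidxs n).2])
      exact ⟨e, fun _ => he⟩
    · exact ⟨0, fun h => absurd h hj⟩
  choose e he using hex
  refine hno (fun j => z (idx j)) e ?_ ?_ ?_ ?_
  · have : H (z 0) ≤ H (z (idx 0)) := hmono (Nat.zero_le _)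
    show K0 ≤ H (z (idx 0))
    linarith
  · intro j hj
    have h1 := hjump (idx j) (idx (j + 1)) (hidxlt j (j + 1) (Nat.lt_succ_self j) hj)
    have h2 : K0 * H (z (idx j)) ≤ K * H (z (idx j)) :=
      mul_le_mul_of_nonneg_right hK0 (hpos _).le
    exact le_trans h2 h1
  · intro j hj
    exact he j hj
  · intro j _
    exact hzE _

end Pool.Agent.Helper7.SGM
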